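import Mathlib

set_option autoImplicit false

/-!
# Project RP: random perturbations of generalized Collatz maps

`T(x) = (m_j x - r_j)/d` for `x ≡ j mod d`, `gcd(m_j, d) = 1`, `m_j > 0` (Matthews' relatively prime maps).
Environment: independent `ω_x` (`x ∈ ℤ`) with one common law `μ` on a bounded set of integers which gives
mass `≥ ε/d^K` to each of `0, 1, …, d^K - 1`; perturbed map `x ↦ T(x) + ω_x`.

Annealed chain: from `x` go to `T(x) + u` with probability `w u`.  `Q` is its transition operator, killed on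
`|x| < M`.  All statements below are `Prop`s; the packages prove them.
-/

namespace Pool.Agent.U762.RP

open Finset MeasureTheory Filter

/-- the generalized Collatz map -/
def T (d : ℕ) (m r : ℤ → ℤ) (x : ℤ) : ℤ := (m (x % d) * x - r (x % d)) / d

/-- the map is given by positive multipliers prime to `d`, and the division is exact -/
structure Rel (d : ℕ) (m r : ℤ → ℤ) : Prop where
  two_le : 2 ≤ d
  pos : ∀ j : ℤ, 0 ≤ j → j < d → 0 < m j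
  cop : ∀ j : ℤ, 0 ≤ j → j < d → IsCoprime (m j) (d : ℤ)
  dvd : ∀ j : ℤ, 0 ≤ j → j < d → (d : ℤ) ∣ m j * j - r j

/-- transition operator of the annealed chain, killed on `|x| < M` -/
noncomputable def Q (d : ℕ) (m r : ℤ → ℤ) (w : ℤ → ℝ) (B : ℕ) (M : ℝ) (F : ℤ → ℝ) (x : ℤ) : ℝ :=
  if |(x : ℝ)| < M then 0 else ∑ u ∈ Icc (-(B : ℤ)) B, w u * F (T d m r x + u)

/-- the potential `|x|^θ`, zero for `|x| < M` -/
noncomputable def V (M θ : ℝ) (x : ℤ) : ℝ := if |(x : ℝ)| < M then 0 else |(x : ℝ)| ^ θ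

/-- the indicator of `|x| ≥ M` -/
noncomputable def ind (M : ℝ) (x : ℤ) : ℝ := if |(x : ℝ)| < M then 0 else 1

/-- `a_j (1+η)`, `a_j = m_j / d` -/
noncomputable def fac (d : ℕ) (m : ℤ → ℤ) (η : ℝ) (j : ℕ) : ℝ := (m (j : ℤ) : ℝ) / d * (1 + η)

/-- **EXP** (exponents).  `a_j > 0`, `∏ a_j < 1`, `0 < ε < 1`.  Proof: the function
`h(θ) = ∑_j a_j^θ` has `h(0) = d`, `h'(0) = log ∏ a_j < 0`, so `h(θ) < d` for some small `θ ∈ (0,1)`, and
`(1-ε) a_j^θ < 1` for small `θ` (finitely many `j`, continuity at `θ = 0`).  Then continuity in `η` at `0`. -/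
def S_EXP : Prop := ∀ (d : ℕ) (m : ℤ → ℤ), 2 ≤ d → (∀ j : ℤ, 0 ≤ j → j < d → 0 < m j) →
  (∏ j ∈ range d, m (j : ℤ)) < (d : ℤ) ^ d → ∀ ε : ℝ, 0 < ε → ε < 1 →
  ∃ θ η : ℝ, 0 < θ ∧ θ < 1 ∧ 0 < η ∧ (∑ j ∈ range d, fac d m η j ^ θ) < d ∧
    ∀ j ∈ range d, (1 - ε) * fac d m η j ^ θ < 1

/-- the recursion of the worst case bounds -/
noncomputable def g (ε R ρ : ℝ) : ℕ → ℝ
  | 0 => 1
  | k + 1 => R * (ε * ρ ^ k + (1 - ε) * g ε R ρ k)

/-- **REC**.  With `q = (1-ε) R < 1`: `g k = q^k + ε R ∑_{j<k} q^j ρ^(k-1-j) ≤ q^k + ε R k s^(k-1)`,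
`s = max q ρ < 1`. -/
def S_REC : Prop := ∀ ε R ρ : ℝ, 0 < ε → ε < 1 → 0 < R → 0 ≤ ρ → ρ < 1 → (1 - ε) * R < 1 →
  Tendsto (fun k => g ε R ρ k) atTop (nhds 0)

/-- **AVG** (averages over arithmetic progressions).  Induction on `k`, all other variables general.
`k = 0`: each summand is `≤ z^θ`.  `k+1`, `i = i'+1`: split `u = s + d v`, `s < d`, `v < d^i'`
(`Finset.sum_range_mul`-like / `Nat.divModEquiv`); for fixed `s` all `x_v = y + c(s + d v)` are congruent to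
`j(s) = (y + c s) mod d`, `s ↦ j(s)` is a bijection of `range d` onto the residues since `gcd(c,d) = 1`, and
`T(x_v) = T(y + c s) + m_j c v`, where `m_j c` is prime to `d`.  If `|x_v| < M` the term is `0`; if `z < M` all
terms are `0`; otherwise for each `u'` with `|u'| ≤ B` all points `T(y+cs) + u' + m_j c v` OF MODULUS `≥ M`
... simplest: `|T(x_v) + u'| ≤ (m_j z + |r_j|)/d + B ≤ fac η j * z` because `z ≥ M ≥ M₀` (for ALL `v`, as
`|x_v| ≤ z`), so the induction hypothesis applies with `y' = T(y+cs) + u'`, `c' = m_j c`, `z' = fac η j * z`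
(drop the killing at the first step, all terms are `≥ 0`), and `∑_u' w u' ≤ 1`.  Sum over `s`. -/
def S_AVG : Prop := ∀ (d : ℕ) (m r : ℤ → ℤ), Rel d m r → ∀ θ η : ℝ, 0 < θ → θ < 1 → 0 < η → ∀ B : ℕ,
  ∃ M₀ : ℝ, 1 ≤ M₀ ∧ ∀ M : ℝ, M₀ ≤ M → ∀ w : ℤ → ℝ, (∀ u, 0 ≤ w u) →
    ∑ u ∈ Icc (-(B : ℤ)) B, w u ≤ 1 → ∀ k i : ℕ, k ≤ i → ∀ c y : ℤ, IsCoprime c (d : ℤ) → ∀ z : ℝ, 0 ≤ z →
      (∀ u : ℕ, u < d ^ i → |((y + c * u : ℤ) : ℝ)| ≤ z) →
      ∑ u ∈ range (d ^ i), (Q d m r w B M)^[k] (V M θ) (y + c * u) ≤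
        (d : ℝ) ^ i * ((∑ j ∈ range d, fac d m η j ^ θ) / d) ^ k * z ^ θ

/-- **WC** (worst case).  Induction on `k`; `k = 0` is `V ≤ |x|^θ = g 0 |x|^θ`.  Step: if `|x| < M` zero.
Otherwise `z = fac η j |x|` (`j = x mod d`) satisfies `|T x + u| ≤ z` for all `|u| ≤ B` (`|x| ≥ M ≥ M₀`; take
`M₀` at least the one of AVG), `z^θ ≤ R |x|^θ`, and
`∑_u w u F(Tx+u) = (ε/d^K) ∑_{u<d^K} F(Tx+u) + ∑_u (w u - ε/d^K 1_{0≤u<d^K}) F(Tx+u)`, `F = Q^k V ≥ 0`; the first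
sum is `≤ ε ρ^k z^θ` by AVG (`i = K ≥ k`, `c = 1`, `y = T x`), the second `≤ (1-ε) g_k z^θ` by the induction
hypothesis (total mass `≤ 1 - ε`, the weights are `≥ 0`; `Q^k V (y) ≤ g_k |y|^θ ≤ g_k z^θ`). -/
def S_WC : Prop := ∀ (d : ℕ) (m r : ℤ → ℤ), Rel d m r → ∀ θ η : ℝ, 0 < θ → θ < 1 → 0 < η → ∀ B : ℕ,
  ∃ M₀ : ℝ, 1 ≤ M₀ ∧ ∀ M : ℝ, M₀ ≤ M → ∀ w : ℤ → ℝ, (∀ u, 0 ≤ w u) →
    ∑ u ∈ Icc (-(B : ℤ)) B, w u ≤ 1 → ∀ (ε R : ℝ) (K : ℕ), 0 < ε → ε < 1 → d ^ K ≤ B →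
      (∀ j ∈ range d, fac d m η j ^ θ ≤ R) →
      (∀ u : ℤ, 0 ≤ u → u < (d : ℤ) ^ K → ε / (d : ℝ) ^ K ≤ w u) → ∀ k : ℕ, k ≤ K + 1 → ∀ x : ℤ,
        (Q d m r w B M)^[k] (V M θ) x ≤
          g ε R ((∑ j ∈ range d, fac d m η j ^ θ) / d) k * |(x : ℝ)| ^ θ

/-- **ANA** (exponential decay of the survival probability), from EXP, REC, WC: take `θ, η` from EXP,
`R = max_j fac^θ` (or any `R > 0` with `fac^θ ≤ R`, `(1-ε) R < 1`), `ρ = (∑ fac^θ)/d < 1`, `K` with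
`g K ≤ 1/2`, `K ≥ 1` (REC), `M` from WC.  So `Q^K V ≤ V/2`: note `Q^K V x = 0` for `|x| < M` if `K ≥ 1`, so
`Q^K V ≤ (1/2) V` pointwise, and `Q` is monotone and linear; `Q^(K n) V ≤ 2^(-n) V`.  Also `ind M ≤ V M θ` as
`M ≥ 1`, and `Q^s V ≤ g_s V ≤ C V` for `s < K`; `|x|^θ ≤ 1 + |x|`.  `λ = 2^(-1/K)`. -/
def S_ANA : Prop := ∀ (d : ℕ) (m r : ℤ → ℤ), Rel d m r →
  (∏ j ∈ range d, m (j : ℤ)) < (d : ℤ) ^ d → ∀ ε : ℝ, 0 < ε → ε < 1 → ∃ K : ℕ, ∀ B : ℕ, d ^ K ≤ B →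
    ∃ M C lam : ℝ, 1 ≤ M ∧ 0 < C ∧ 0 < lam ∧ lam < 1 ∧ ∀ w : ℤ → ℝ, (∀ u, 0 ≤ w u) →
      ∑ u ∈ Icc (-(B : ℤ)) B, w u ≤ 1 →
      (∀ u : ℤ, 0 ≤ u → u < (d : ℤ) ^ K → ε / (d : ℝ) ^ K ≤ w u) → ∀ (L : ℕ) (x : ℤ),
        (Q d m r w B M)^[L] (ind M) x ≤ C * lam ^ L * (1 + |(x : ℝ)|)

/-- the perturbed map in the environment `ω` -/
def stp (d : ℕ) (m r : ℤ → ℤ) (ω : ℤ → ℤ) (x : ℤ) : ℤ := T d m r x + ω x

/-- the first `L + 1` terms of the orbit of `x` are different and of modulus at least `M` -/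
def Long (d : ℕ) (m r : ℤ → ℤ) (M : ℝ) (L : ℕ) (x : ℤ) (ω : ℤ → ℤ) : Prop :=
  (∀ i : ℕ, i ≤ L → M ≤ |(((stp d m r ω)^[i] x : ℤ) : ℝ)|) ∧
    ∀ i j : ℕ, i < j → j ≤ L → (stp d m r ω)^[i] x ≠ (stp d m r ω)^[j] x

/-- **PRB** (from the environment to the annealed chain).  The set is contained in the union over the words
`u : Fin L → [-B, B]` for which the points `x_0 = x`, `x_{i+1} = T(x_i) + u_i` are different and of modulus
`≥ M`, of the cylinders `{ω | ω(x_i) = u_i, i < L}` (and a null set where some `|ω| > B`), of measure `∏ w(u_i)`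
(`Measure.infinitePi_pi` for the finite set `{x_0, …, x_{L-1}}`); the sum over the words of
`∏ w(u_i) * 1[all |x_i| ≥ M]` is `Q^L (ind M) x` by induction on `L` (drop the condition that the points are
different).  It may be easier to prove by induction on `L` the statement with an additional finite set `A` of
forbidden points and additional conditions `ω(a) = v(a)` on `A`. -/
def S_PRB : Prop := ∀ (d : ℕ) (m r : ℤ → ℤ) (μ : Measure ℤ) [IsProbabilityMeasure μ] (B : ℕ),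
  μ {u : ℤ | (B : ℤ) < |u|} = 0 → ∀ (M : ℝ) (L : ℕ) (x : ℤ),
    (Measure.infinitePi fun _ : ℤ => μ) {ω | Long d m r M L x ω} ≤
      ENNReal.ofReal ((Q d m r (fun u => μ.real {u}) B M)^[L] (ind M) x)

/-- **DET** (deterministic end game).  `ω` bounded by `B`, and for all but finitely many `x` the orbit of `x` is
not `Long` with `L = ⌈c log(2+|x|)⌉`.  Then all orbits are finite, with at most `c' log(2+|x|) + C`
elements, `c'` depending on `c` only (say `c' = c + 3`; any `c'` that does not depend on `ω`), and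
`|y| ≤ C (2+|x|)^c'` for all `y` in the orbit, `c'` depending only on `d, m, r, B, c`.
Proof: let `F` be the finite set of the exceptional `x` and of the `x` with `|x| < M`.  If `x ∉ F`, then within
`L(x)` steps the orbit repeats (then it is finite with `≤ L(x) + 1` elements) or enters `|y| < M`, so: every
`x ∉ F` has a finite orbit with `≤ L(x)+1` elements or reaches `F` within `L(x)` steps.  An infinite orbit has
different terms, only finitely many in `F`, so from some time on no term in `F`: contradiction.  So all orbits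
are finite; let `D` be the maximum of their sizes over `F`; then `#orb(x) ≤ L(x) + 1 + D` for all `x`.
Growth: `1 + |T(x)+ω_x| ≤ A (1+|x|)` with `A = A(d,m,r,B) ≥ 1`; each element of the orbit is reached in fewer
steps than the number of elements, so it is at most `A^(#orb) (1+|x|)`. -/
def S_DET : Prop := ∀ (d : ℕ) (m r : ℤ → ℤ) (B : ℕ) (M c : ℝ), 2 ≤ d → 0 < c → ∃ c' : ℝ, 0 < c' ∧
  ∀ ω : ℤ → ℤ, (∀ x, |ω x| ≤ B) →
    {x : ℤ | Long d m r M ⌈c * Real.log (2 + |(x : ℝ)|)⌉₊ x ω}.Finite →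
    ∃ C : ℝ, ∀ x : ℤ, (Set.range fun i : ℕ => (stp d m r ω)^[i] x).Finite ∧
      ((Set.range fun i : ℕ => (stp d m r ω)^[i] x).ncard : ℝ) ≤ c' * Real.log (2 + |(x : ℝ)|) + C ∧
      ∀ i : ℕ, |(((stp d m r ω)^[i] x : ℤ) : ℝ)| ≤ C * (2 + |(x : ℝ)|) ^ c'

/-- **FIN** (Borel-Cantelli), from ANA, PRB, DET: `K` from ANA, then `M, C, λ`; `c = 4 / log(1/λ)`, so that the
probability of `Long … ⌈c log(2+|x|)⌉` is at most `C (2+|x|)^(-4) (1+|x|) ≤ C (2+|x|)^(-3)`, summable over `ℤ`;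
`measure_limsup_cofinite_eq_zero` or the like; almost surely `|ω x| ≤ B` for all `x` (countably many null
sets; marginals of `infinitePi` are `μ`: `measurePreserving_eval_infinitePi`). -/
def S_FIN : Prop := ∀ (d : ℕ) (m r : ℤ → ℤ), Rel d m r →
  (∏ j ∈ range d, m (j : ℤ)) < (d : ℤ) ^ d → ∀ ε : ℝ, 0 < ε → ε < 1 → ∃ K : ℕ, ∀ (B : ℕ) (μ : Measure ℤ)
    [IsProbabilityMeasure μ], μ {u : ℤ | (B : ℤ) < |u|} = 0 →
    (∀ u : ℤ, 0 ≤ u → u < (d : ℤ) ^ K → ε / (d : ℝ) ^ K ≤ μ.real {u}) →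
    ∃ c : ℝ, 0 < c ∧ ∀ᵐ ω ∂(Measure.infinitePi fun _ : ℤ => μ), ∃ C : ℝ, ∀ x : ℤ,
      (Set.range fun i : ℕ => (stp d m r ω)^[i] x).Finite ∧
      ((Set.range fun i : ℕ => (stp d m r ω)^[i] x).ncard : ℝ) ≤ c * Real.log (2 + |(x : ℝ)|) + C ∧
      ∀ i : ℕ, |(((stp d m r ω)^[i] x : ℤ) : ℝ)| ≤ C * (2 + |(x : ℝ)|) ^ c

end Pool.Agent.U762.RP
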