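import Pool.Agent.U762.RP.Fin
import Pool.Agent.U891.RP.EXP
import Pool.Agent.U165.RP.REC
import Pool.Agent.U594.RP.AVG
import Pool.Agent.U97.RP.WC
import Pool.Agent.U111.RP.ANA
import Pool.Agent.U511.RP.PRB
import Pool.Agent.U898.RP.DET
import Pool.Agent.U981.RP.FIN

set_option autoImplicit false

/-! # Project RP: the contracting half -/

namespace Pool.Agent.U762.RP

theorem fin1 : S_FIN := Pool.Agent.U981.RP.t_FIN (Pool.Agent.U111.RP.t_ANA Pool.Agent.U891.RP.t_EXP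
  Pool.Agent.U165.RP.REC.t_REC (Pool.Agent.U97.RP.t_WC Pool.Agent.U594.RP.t_AVG)) Pool.Agent.U511.RP.t_PRB
  Pool.Agent.U898.RP.DET.t_DET

end Pool.Agent.U762.RP
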