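import Pool.Agent.U762.RP.Stm

set_option autoImplicit false

/-!
# Project RP, second half: expanding maps, `∏ m_j > d^d`

Almost all orbits of the randomly perturbed map diverge.  The potential is now `|x|^(-θ)`.
-/

namespace Pool.Agent.U762.RP

open Finset MeasureTheory Filter

/-- `a_j (1-η)`, `a_j = m_j / d` -/
noncomputable def facm (d : ℕ) (m : ℤ → ℤ) (η : ℝ) (j : ℕ) : ℝ := (m (j : ℤ) : ℝ) / d * (1 - η)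

/-- the potential `|x|^(-θ)`, zero for `|x| < M` -/
noncomputable def Vm (M θ : ℝ) (x : ℤ) : ℝ := if |(x : ℝ)| < M then 0 else |(x : ℝ)| ^ (-θ)

/-- **EXPm**: as EXP, with `a_j^(-θ)`: derivative of `∑ a_j^(-θ)` at `0` is `- log ∏ a_j < 0`. -/
def S_EXPm : Prop := ∀ (d : ℕ) (m : ℤ → ℤ), 2 ≤ d → (∀ j : ℤ, 0 ≤ j → j < d → 0 < m j) →
  (d : ℤ) ^ d < (∏ j ∈ range d, m (j : ℤ)) → ∀ ε : ℝ, 0 < ε → ε < 1 →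
  ∃ θ η : ℝ, 0 < θ ∧ θ < 1 ∧ 0 < η ∧ η ≤ 1 / 2 ∧ (∑ j ∈ range d, facm d m η j ^ (-θ)) < d ∧
    ∀ j ∈ range d, (1 - ε) * facm d m η j ^ (-θ) < 1

/-- **AVGm**.  As AVG with lower bounds `z`: for `|x| ≥ M₀` and `|u'| ≤ B`,
`|T x + u'| ≥ (m_j |x| - |r_j|)/d - B ≥ facm η j * |x| ≥ |x|/(2d)`.  Induction on `k`: the condition
`z ≥ (2d)^k M₀` guarantees that all `|x_v| ≥ z ≥ M₀`, and `z' = facm η j * z ≥ (2d)^(k-1) M₀`.  The killing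
threshold `M` is arbitrary (killing only decreases; for `k = 0`: `Vm ≤ z^(-θ)`). -/
def S_AVGm : Prop := ∀ (d : ℕ) (m r : ℤ → ℤ), Rel d m r → ∀ θ η : ℝ, 0 < θ → θ < 1 → 0 < η → η ≤ 1 / 2 →
  ∀ B : ℕ, ∃ M₀ : ℝ, 1 ≤ M₀ ∧ ∀ (M : ℝ) (w : ℤ → ℝ), (∀ u, 0 ≤ w u) →
    ∑ u ∈ Icc (-(B : ℤ)) B, w u ≤ 1 → ∀ k i : ℕ, k ≤ i → ∀ c y : ℤ, IsCoprime c (d : ℤ) → ∀ z : ℝ,
      (2 * d : ℝ) ^ k * M₀ ≤ z → (∀ u : ℕ, u < d ^ i → z ≤ |((y + c * u : ℤ) : ℝ)|) →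
      ∑ u ∈ range (d ^ i), (Q d m r w B M)^[k] (Vm M θ) (y + c * u) ≤
        (d : ℝ) ^ i * ((∑ j ∈ range d, facm d m η j ^ (-θ)) / d) ^ k * z ^ (-θ)

/-- **WCm**.  As WC; `M ≥ (2d)^(K+1) M₀`, so that for `|x| ≥ M` the number `z = facm η j |x| ≥ |x|/(2d)` is at
least `(2d)^K M₀` and AVGm applies with `i = K`, `c = 1`, `y = T x`. -/
def S_WCm : Prop := ∀ (d : ℕ) (m r : ℤ → ℤ), Rel d m r → ∀ θ η : ℝ, 0 < θ → θ < 1 → 0 < η → η ≤ 1 / 2 →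
  ∀ (B K : ℕ), d ^ K ≤ B → ∃ M₀ : ℝ, 1 ≤ M₀ ∧ ∀ M : ℝ, M₀ ≤ M → ∀ w : ℤ → ℝ, (∀ u, 0 ≤ w u) →
    ∑ u ∈ Icc (-(B : ℤ)) B, w u ≤ 1 → ∀ (ε R : ℝ), 0 < ε → ε < 1 →
      (∀ j ∈ range d, facm d m η j ^ (-θ) ≤ R) →
      (∀ u : ℤ, 0 ≤ u → u < (d : ℤ) ^ K → ε / (d : ℝ) ^ K ≤ w u) → ∀ k : ℕ, k ≤ K + 1 → ∀ x : ℤ,
        (Q d m r w B M)^[k] (Vm M θ) x ≤
          g ε R ((∑ j ∈ range d, facm d m η j ^ (-θ)) / d) k * Vm M θ x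

/-- **ANAm**, from EXPm, REC, WCm (as ANA; `K` with `g K ≤ 1/2`): the constants do not depend on `M ≥ M₀`. -/
def S_ANAm : Prop := ∀ (d : ℕ) (m r : ℤ → ℤ), Rel d m r →
  (d : ℤ) ^ d < (∏ j ∈ range d, m (j : ℤ)) → ∀ ε : ℝ, 0 < ε → ε < 1 → ∃ K : ℕ, ∀ B : ℕ, d ^ K ≤ B →
    ∃ M₀ C lam θ : ℝ, 1 ≤ M₀ ∧ 0 < C ∧ 0 < lam ∧ lam < 1 ∧ 0 < θ ∧ θ < 1 ∧ ∀ M : ℝ, M₀ ≤ M →
      ∀ w : ℤ → ℝ, (∀ u, 0 ≤ w u) → ∑ u ∈ Icc (-(B : ℤ)) B, w u ≤ 1 →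
      (∀ u : ℤ, 0 ≤ u → u < (d : ℤ) ^ K → ε / (d : ℝ) ^ K ≤ w u) → ∀ (L : ℕ) (x : ℤ),
        (Q d m r w B M)^[L] (Vm M θ) x ≤ C * lam ^ L * Vm M θ x

/-- the probability to be killed at the next step -/
noncomputable def kap (d : ℕ) (m r : ℤ → ℤ) (w : ℤ → ℝ) (B : ℕ) (M : ℝ) (y : ℤ) : ℝ :=
  if |(y : ℝ)| < M then 0 else
    ∑ u ∈ Icc (-(B : ℤ)) B, w u * (if |((T d m r y + u : ℤ) : ℝ)| < M then 1 else 0)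

/-- the probability of the killed chain to be at its starting point `y` after `l` steps -/
noncomputable def ret (d : ℕ) (m r : ℤ → ℤ) (w : ℤ → ℝ) (B : ℕ) (M : ℝ) (l : ℕ) (y : ℤ) : ℝ :=
  (Q d m r w B M)^[l] (fun z => if z = y ∧ M ≤ |(z : ℝ)| then 1 else 0) y

/-- **RET** (no quick returns).  A path `y = X_0, …, X_l = y`, `X_{i+1} = (m_i X_i - r_i)/d + u_i`, `|u_i| ≤ B`,
gives `d^l y = (∏ m_i) y + E` with `|E| ≤ A^l`, `A = A(d,m,r,B) ≥ 2`; `d^l ≠ ∏ m_i` since `∏ m_i` is prime to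
`d ≥ 2` and `l ≥ 1`; so `|y| ≤ A^l`, a contradiction if `l ≤ c₀ log |y|`, `c₀ < 1/log A` (`|y| ≥ 2` then).
Formally: by induction, `(Q^l F) x = 0` if `F` vanishes at all end points of such paths from `x`. -/
def S_RET : Prop := ∀ (d : ℕ) (m r : ℤ → ℤ), Rel d m r → ∀ B : ℕ, ∃ c₀ : ℝ, 0 < c₀ ∧
  ∀ (w : ℤ → ℝ) (M : ℝ) (l : ℕ) (y : ℤ), 1 ≤ l → (l : ℝ) ≤ c₀ * Real.log |(y : ℝ)| →
    ret d m r w B M l y = 0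

/-- **SUM** (from ANAm and RET).  `x` large, `M = |x|^(1/2)`.  (1) `|T y + u| < M` forces `|y| ≤ A M`, so
`kap y ≤ (A M)^θ Vm y`, and `∑_i Q^i kap x ≤ (A M)^θ ∑_i C λ^i |x|^(-θ)`.
(2) `ret l y ≤ C λ^l` always (`1_{z=y} ≤ |y|^θ Vm z`), and `ret l y = 0` for `l ≤ c₀ log|y|`; so
`ret l y ≤ C λ^(l/2) |y|^(-b)` for `|y| ≥ M`, with `b = min(θ, (c₀/2) log(1/λ))` (`ret l y = 0` for `|y| < M`,
`l ≥ 1`).  `|y|^(-b) 1_{|y| ≥ M} = (Vm y)^s`, `s = b/θ ≤ 1`, and `Q^i (Vm^s) x ≤ (C λ^i Vm x)^s` by Jensen: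
`Z^s ≤ (1-s) t^s + s t^(s-1) Z` for all `t > 0`, and `Q` is positive, linear, `Q 1 ≤ 1`.
All sums are geometric series; the result is `≤ C |x|^(-c)`. -/
def S_SUM : Prop := ∀ (d : ℕ) (m r : ℤ → ℤ), Rel d m r →
  (d : ℤ) ^ d < (∏ j ∈ range d, m (j : ℤ)) → ∀ ε : ℝ, 0 < ε → ε < 1 → ∃ K : ℕ, ∀ B : ℕ, d ^ K ≤ B →
    ∃ M₁ C c : ℝ, 1 ≤ M₁ ∧ 0 < C ∧ 0 < c ∧ c < 1 ∧ ∀ w : ℤ → ℝ, (∀ u, 0 ≤ w u) →
      ∑ u ∈ Icc (-(B : ℤ)) B, w u ≤ 1 →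
      (∀ u : ℤ, 0 ≤ u → u < (d : ℤ) ^ K → ε / (d : ℝ) ^ K ≤ w u) → ∀ x : ℤ, M₁ ≤ |(x : ℝ)| → ∀ N : ℕ,
        ∑ i ∈ range N, (Q d m r w B (|(x : ℝ)| ^ (1 / 2 : ℝ)))^[i]
            (kap d m r w B (|(x : ℝ)| ^ (1 / 2 : ℝ))) x ≤ C * |(x : ℝ)| ^ (-c) ∧
        ∑ i ∈ range N, ∑ l ∈ range N, (Q d m r w B (|(x : ℝ)| ^ (1 / 2 : ℝ)))^[i]
            (ret d m r w B (|(x : ℝ)| ^ (1 / 2 : ℝ)) (l + 1)) x ≤ C * |(x : ℝ)| ^ (-c)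

/-- all terms of the orbit of `x` are different and of modulus at least `M` (so the orbit diverges) -/
def Free (d : ℕ) (m r : ℤ → ℤ) (M : ℝ) (x : ℤ) (ω : ℤ → ℤ) : Prop :=
  (∀ i : ℕ, M ≤ |(((stp d m r ω)^[i] x : ℤ) : ℝ)|) ∧
    ∀ i j : ℕ, i < j → (stp d m r ω)^[i] x ≠ (stp d m r ω)^[j] x

/-- **PRBm**.  `|x| ≥ M`.  If the orbit is not `Free`, let `j ≥ 1` be the first time at which `|x_j| < M` or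
`x_j = x_i` for some `i < j`; the points `x_0, …, x_{j-1}` are different and of modulus `≥ M`.  For each `j`
the event is covered by the cylinders `{ω(x_i) = u_i, i < j}` of measure `∏ w(u_i)`; the sum over the words with
`|x_j| < M` is at most `Q^(j-1) kap x`, the sum over those with `x_j = x_i`, `|x_j| ≥ M`, is at most
`Q^i (ret (j-i)) x`.  (See PRB; a null set where some `|ω| > B`.) -/
def S_PRBm : Prop := ∀ (d : ℕ) (m r : ℤ → ℤ) (μ : Measure ℤ) [IsProbabilityMeasure μ] (B : ℕ),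
  μ {u : ℤ | (B : ℤ) < |u|} = 0 → ∀ (M : ℝ) (x : ℤ), M ≤ |(x : ℝ)| → ∀ (b₁ b₂ : ℝ),
    (∀ N : ℕ, ∑ i ∈ range N, (Q d m r (fun u => μ.real {u}) B M)^[i]
      (kap d m r (fun u => μ.real {u}) B M) x ≤ b₁) →
    (∀ N : ℕ, ∑ i ∈ range N, ∑ l ∈ range N, (Q d m r (fun u => μ.real {u}) B M)^[i]
      (ret d m r (fun u => μ.real {u}) B M (l + 1)) x ≤ b₂) →
    (Measure.infinitePi fun _ : ℤ => μ) {ω | ¬ Free d m r M x ω} ≤ ENNReal.ofReal (b₁ + b₂)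

/-- the orbit of `x` diverges -/
def Div (d : ℕ) (m r : ℤ → ℤ) (x : ℤ) (ω : ℤ → ℤ) : Prop :=
  Tendsto (fun i : ℕ => |(stp d m r ω)^[i] x|) atTop atTop

/-- **FINm**, from SUM and PRBm.  Different integers tend to infinity in modulus (cofinite), so `Free → Div`;
`P(not Div x) ≤ C (1+|x|)^(-c)` for all `x` (`K` from SUM, `B` replaced by `max B (d^K)`); the number of
exceptional `|x| ≤ 2^k` has expectation `≤ C 2^(k(1-c))`, by Markov's inequality and Borel-Cantelli (`c/2`)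
it is almost surely `≤ 2^(k(1-c/2))` for large `k`; then all `X`. (The sets need not be measurable: use outer
measure, `{ω | #{…} ≥ λ}`: cover by lintegral of the sum of indicators of measurable hulls `toMeasurable`.) -/
def S_FINm : Prop := ∀ (d : ℕ) (m r : ℤ → ℤ), Rel d m r →
  (d : ℤ) ^ d < (∏ j ∈ range d, m (j : ℤ)) → ∀ ε : ℝ, 0 < ε → ε < 1 → ∃ K : ℕ, ∀ (B : ℕ) (μ : Measure ℤ)
    [IsProbabilityMeasure μ], μ {u : ℤ | (B : ℤ) < |u|} = 0 →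
    (∀ u : ℤ, 0 ≤ u → u < (d : ℤ) ^ K → ε / (d : ℝ) ^ K ≤ μ.real {u}) →
    ∃ c : ℝ, 0 < c ∧ ∀ᵐ ω ∂(Measure.infinitePi fun _ : ℤ => μ), ∃ C : ℝ, ∀ X : ℝ, 1 ≤ X →
      ({x : ℤ | |(x : ℝ)| ≤ X ∧ ¬ Div d m r x ω}.ncard : ℝ) ≤ C * X ^ (1 - c)

end Pool.Agent.U762.RP
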