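import Pool.Agent.U762.RP.Stm2

set_option autoImplicit false

/-! # Project RP: the rare law, the maps `qx+1` -/

namespace Pool.Agent.U762.RP

open Finset MeasureTheory Filter

/-- the law of the rare perturbations: `0` with probability `1 - ε`, otherwise uniform on `{0, …, N - 1}` -/
noncomputable def rare (ε : ℝ) (N : ℕ) : Measure ℤ :=
  ENNReal.ofReal (1 - ε) • Measure.dirac (0 : ℤ) +
    ∑ u ∈ range N, ENNReal.ofReal (ε / N) • Measure.dirac (u : ℤ)

theorem rare_apply (ε : ℝ) (N : ℕ) (s : Set ℤ) : rare ε N s =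
    ENNReal.ofReal (1 - ε) * (Measure.dirac (0 : ℤ)) s +
      ∑ u ∈ range N, ENNReal.ofReal (ε / N) * (Measure.dirac (u : ℤ)) s := by
  unfold rare
  rw [Measure.add_apply, Measure.smul_apply, smul_eq_mul, Measure.finsetSum_apply]
  simp only [Measure.smul_apply, smul_eq_mul]

theorem rare_prob {ε : ℝ} (h0 : 0 ≤ ε) (h1 : ε ≤ 1) {N : ℕ} (hN : 0 < N) : IsProbabilityMeasure (rare ε N) := by
  refine ⟨?_⟩
  rw [rare_apply]
  simp only [Measure.dirac_apply_of_mem (Set.mem_univ _), mul_one, sum_const, card_range, nsmul_eq_mul]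
  have hN' : (0 : ℝ) < N := by exact_mod_cast hN
  rw [show ((N : ℕ) : ENNReal) = ENNReal.ofReal (N : ℝ) from (ENNReal.ofReal_natCast N).symm,
    ← ENNReal.ofReal_mul hN'.le, ← ENNReal.ofReal_add (by linarith) (by positivity)]
  have : 1 - ε + N * (ε / N) = 1 := by field_simp; ring
  rw [this, ENNReal.ofReal_one]

theorem rare_bdd (ε : ℝ) {N : ℕ} (hN : 0 < N) : rare ε N {u : ℤ | u < 0 ∨ (N : ℤ) ≤ u} = 0 := by
  rw [rare_apply]
  have e0 : (Measure.dirac (0 : ℤ)) {u : ℤ | u < 0 ∨ (N : ℤ) ≤ u} = 0 := by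
    rw [Measure.dirac_apply' _ (MeasurableSet.of_discrete), Set.indicator_of_notMem]
    simp only [Set.mem_ofPred_eq, not_or, not_lt, not_le]
    exact ⟨le_rfl, by exact_mod_cast hN⟩
  rw [e0, mul_zero, zero_add]
  refine sum_eq_zero fun u hu => ?_
  rw [mem_range] at hu
  rw [Measure.dirac_apply' _ (MeasurableSet.of_discrete), Set.indicator_of_notMem, mul_zero]
  simp only [Set.mem_ofPred_eq, not_or, not_lt, not_le]
  exact ⟨by positivity, by exact_mod_cast hu⟩

theorem rare_zero {ε : ℝ} (h0 : 0 ≤ ε) (h1 : ε ≤ 1) {N : ℕ} (hN : 0 < N) : 1 - ε ≤ (rare ε N).real {0} := by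
  have := rare_prob h0 h1 hN
  have h : ENNReal.ofReal (1 - ε) ≤ rare ε N {0} := by
    rw [rare_apply, Measure.dirac_apply_of_mem (Set.mem_singleton _), mul_one]
    exact le_self_add
  have h2 := ENNReal.toReal_mono (measure_ne_top _ _) h
  rwa [ENNReal.toReal_ofReal (by linarith)] at h2

theorem rare_mass {ε : ℝ} (h0 : 0 ≤ ε) (h1 : ε ≤ 1) {N : ℕ} (hN : 0 < N) (u : ℤ) (hu : 0 ≤ u) (huN : u < N) :
    ε / N ≤ (rare ε N).real {u} := by
  have := rare_prob h0 h1 hN
  lift u to ℕ using hu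
  have huN' : u < N := by exact_mod_cast huN
  have h : ENNReal.ofReal (ε / N) ≤ rare ε N {(u : ℤ)} := by
    rw [rare_apply]
    refine le_trans ?_ le_add_self
    refine le_trans ?_ (single_le_sum (f := fun u' : ℕ => ENNReal.ofReal (ε / N) * (Measure.dirac (u' : ℤ)) {(u : ℤ)})
      (fun _ _ => bot_le) (mem_range.2 huN'))
    rw [Measure.dirac_apply_of_mem (Set.mem_singleton _), mul_one]
  have h2 := ENNReal.toReal_mono (measure_ne_top _ _) h
  rwa [ENNReal.toReal_ofReal (by positivity)] at h2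

/-- the map `x ↦ x/2` (`x` even), `(qx+1)/2` (`x` odd) -/
def col (q : ℕ) (x : ℤ) : ℤ := if x % 2 = 0 then x / 2 else (q * x + 1) / 2

/-- its multipliers -/
def mq (q : ℕ) (j : ℤ) : ℤ := if j = 0 then 1 else q

/-- its remainders -/
def rq (j : ℤ) : ℤ := if j = 0 then 0 else -1

theorem T_col (q : ℕ) (x : ℤ) : T 2 (mq q) rq x = col q x := by
  unfold T col mq rq
  have h2 : ((2 : ℕ) : ℤ) = 2 := rfl
  rw [h2]
  by_cases h : x % 2 = 0
  · simp [h]
  · simp [h, sub_neg_eq_add]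

theorem rel_col {q : ℕ} (hq : Odd q) : Rel 2 (mq q) rq := by
  obtain ⟨k, rfl⟩ := hq
  refine ⟨le_rfl, ?_, ?_, ?_⟩
  · intro j _ _
    unfold mq
    split_ifs
    · norm_num
    · positivity
  · intro j _ _
    unfold mq
    split_ifs
    · exact isCoprime_one_left
    · refine ⟨1, -(k : ℤ), ?_⟩
      push_cast
      ring
  · intro j h0 h1
    have h2 : j = 0 ∨ j = 1 := by
      have : j < 2 := by exact_mod_cast h1
      omega
    rcases h2 with rfl | rfl
    · simp [mq, rq]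
    · refine ⟨k + 1, ?_⟩
      simp only [mq, rq]
      push_cast
      norm_num
      ring

theorem prod_col (q : ℕ) : ∏ j ∈ range 2, mq q (j : ℤ) = q := by
  rw [prod_range_succ, prod_range_one]
  simp [mq]

/-- the perturbed `qx+1` map -/
def cst (q : ℕ) (ω : ℤ → ℤ) (x : ℤ) : ℤ := col q x + ω x

theorem cst_eq (q : ℕ) (ω : ℤ → ℤ) : stp 2 (mq q) rq ω = cst q ω := by
  funext x
  unfold stp cst
  rw [T_col]

end Pool.Agent.U762.RP
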